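import Pool.Agent.TwoGr.Rep

/-!
The constant is sharp: blow-ups of the pentagon.
-/

set_option autoImplicit false

namespace Pool.Agent.TwoGr

open Finset Pool.Agent.H31Jump

/-- The inequality for the tight cycle when the last number is the smallest. -/
theorem cyc5_aux {a b c d e : ℝ} (he : 0 ≤ e) (ha : e ≤ a) (hb : e ≤ b) (hc : e ≤ c)
    (hd : e ≤ d) : 25 * (a * b * c + b * c * d + c * d * e + d * e * a + e * a * b) ≤
      (a + b + c + d + e) ^ 3 := by
  have ha0 := he.trans ha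
  have hb0 := he.trans hb
  have hc0 := he.trans hc
  have hd0 := he.trans hd
  have e0 : a * b * c + b * c * d + c * d * e + d * e * a + e * a * b =
      e * ((a + c) * (b + d)) + b * (c * (a + d - e)) := by ring
  have h1 : (a + c) * (b + d) ≤ (a + b + c + d) ^ 2 / 4 := by
    nlinarith [sq_nonneg (a + c - b - d)]
  have hz : 0 ≤ a + d - e := by linarith
  have h2 : 27 * (b * (c * (a + d - e))) ≤ (b + c + (a + d - e)) ^ 3 := by
    generalize a + d - e = z at hz ⊢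
    nlinarith [mul_nonneg hb0 (sq_nonneg (c - z)), mul_nonneg hc0 (sq_nonneg (b - z)),
      mul_nonneg hz (sq_nonneg (b - c)), mul_nonneg (add_nonneg (add_nonneg hb0 hc0) hz)
      (add_nonneg (add_nonneg (sq_nonneg (b - c)) (sq_nonneg (c - z))) (sq_nonneg (b - z)))]
  have h3 : e * ((a + c) * (b + d)) ≤ e * ((a + b + c + d) ^ 2 / 4) :=
    mul_le_mul_of_nonneg_left h1 he
  set s := a + b + c + d + e with hs
  have h4 : a + b + c + d = s - e := by rw [hs]; ring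
  have h5 : b + c + (a + d - e) = s - 2 * e := by rw [hs]; ring
  rw [h4] at h3
  rw [h5] at h2
  have hs0 : 0 ≤ s := by rw [hs]; positivity
  have h6 : s ^ 3 / 25 - e * ((s - e) ^ 2 / 4) - (s - 2 * e) ^ 3 / 27 =
      (s - 5 * e) ^ 2 * (2 * s / 675 + e / 540) := by ring
  have h7 : 0 ≤ (s - 5 * e) ^ 2 * (2 * s / 675 + e / 540) := by positivity
  rw [e0]
  linarith

theorem cyc5 (y : Fin 5 → ℝ) (hy : ∀ i, 0 ≤ y i) :
    25 * (y 0 * y 1 * y 2 + y 1 * y 2 * y 3 + y 2 * y 3 * y 4 + y 3 * y 4 * y 0 +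
      y 4 * y 0 * y 1) ≤ (y 0 + y 1 + y 2 + y 3 + y 4) ^ 3 := by
  obtain ⟨i, hi⟩ := Finite.exists_min y
  have hcases : i = 0 ∨ i = 1 ∨ i = 2 ∨ i = 3 ∨ i = 4 := by
    revert i
    intro i _
    fin_cases i <;> simp
  rcases hcases with rfl | rfl | rfl | rfl | rfl
  · have := cyc5_aux (hy 0) (hi 1) (hi 2) (hi 3) (hi 4)
    have e : (y 1 + y 2 + y 3 + y 4 + y 0) = (y 0 + y 1 + y 2 + y 3 + y 4) := by ring
    rw [e] at this
    linarith
  · have := cyc5_aux (hy 1) (hi 2) (hi 3) (hi 4) (hi 0)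
    have e : (y 2 + y 3 + y 4 + y 0 + y 1) = (y 0 + y 1 + y 2 + y 3 + y 4) := by ring
    rw [e] at this
    linarith
  · have := cyc5_aux (hy 2) (hi 3) (hi 4) (hi 0) (hi 1)
    have e : (y 3 + y 4 + y 0 + y 1 + y 2) = (y 0 + y 1 + y 2 + y 3 + y 4) := by ring
    rw [e] at this
    linarith
  · have := cyc5_aux (hy 3) (hi 4) (hi 0) (hi 1) (hi 2)
    have e : (y 4 + y 0 + y 1 + y 2 + y 3) = (y 0 + y 1 + y 2 + y 3 + y 4) := by ring
    rw [e] at this
    linarith
  · have := cyc5_aux (hy 4) (hi 0) (hi 1) (hi 2) (hi 3)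
    linarith

/-- The Lagrangian of the pentagon. -/
theorem lagr_C5 {x0 x1 x2 x3 x4 : ℝ} (h0 : 0 ≤ x0) (h1 : 0 ≤ x1) (h2 : 0 ≤ x2) (h3 : 0 ≤ x3)
    (h4 : 0 ≤ x4) :
    25 * (x0 * x1 * x3 + x1 * x2 * x4 + x2 * x3 * x0 + x3 * x4 * x1 + x4 * x0 * x2) ≤
      (x0 + x1 + x2 + x3 + x4) ^ 3 := by
  have h := cyc5 ![x0, x2, x4, x1, x3] (by
    intro i
    fin_cases i
    · exact h0
    · exact h2
    · exact h4
    · exact h1
    · exact h3)
  have e1 : (![x0, x2, x4, x1, x3] : Fin 5 → ℝ) 0 = x0 := rfl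
  have e2 : (![x0, x2, x4, x1, x3] : Fin 5 → ℝ) 1 = x2 := rfl
  have e3 : (![x0, x2, x4, x1, x3] : Fin 5 → ℝ) 2 = x4 := rfl
  have e4 : (![x0, x2, x4, x1, x3] : Fin 5 → ℝ) 3 = x1 := rfl
  have e5 : (![x0, x2, x4, x1, x3] : Fin 5 → ℝ) 4 = x3 := rfl
  rw [e1, e2, e3, e4, e5] at h
  have e : (x0 + x2 + x4 + x1 + x3) = (x0 + x1 + x2 + x3 + x4) := by ring
  rw [e] at h
  linarith

/-- The pentagon. -/
def P5 (i j l : Fin 5) : Prop := (i, j, l) ∈ symL LC5

instance (i j l : Fin 5) : Decidable (P5 i j l) := by unfold P5; infer_instance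

theorem P5_sym1 : ∀ i j l : Fin 5, P5 i j l → P5 j i l := by decide +kernel

theorem P5_sym2 : ∀ i j l : Fin 5, P5 i j l → P5 i l j := by decide +kernel

theorem P5_irr : ∀ i j : Fin 5, ¬ P5 i i j := by decide +kernel

theorem P5_even : ∀ i j l m : Fin 5, (P5 i j l ↔ P5 i j m) ↔ (P5 i l m ↔ P5 j l m) := by
  decide +kernel

theorem P5_twoG : TwoG P5 := ⟨⟨P5_sym1, P5_sym2⟩, P5_irr, P5_even⟩

open scoped Classical

theorem ordT_P5 {V : Type*} [Fintype V] [DecidableEq V] (χ : V → Fin 5) (S : Finset V) :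
    (ordT (fun u v w => P5 (χ u) (χ v) (χ w)) S).card =
      wsum LC5 (fun i => (S.filter fun v => χ v = i).card) := by
  unfold wsum
  have h : ordT (fun u v w => P5 (χ u) (χ v) (χ w)) S =
      (symL LC5).biUnion (fun p => (S.filter fun v => χ v = p.1) ×ˢ
        ((S.filter fun v => χ v = p.2.1) ×ˢ (S.filter fun v => χ v = p.2.2))) := by
    ext ⟨u, v, w⟩
    simp only [ordT, mem_filter, mem_univ, true_and, mem_biUnion, mem_product]
    constructor
    · rintro ⟨h1, h2, h3, h4⟩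
      exact ⟨(χ u, χ v, χ w), h1, ⟨h2, rfl⟩, ⟨h3, rfl⟩, ⟨h4, rfl⟩⟩
    · rintro ⟨⟨i, j, l⟩, h1, ⟨h2, h3⟩, ⟨h4, h5⟩, ⟨h6, h7⟩⟩
      simp only at h3 h5 h7
      subst h3 h5 h7
      exact ⟨h1, h2, h4, h6⟩
  rw [h, card_biUnion]
  · refine sum_congr rfl fun p _ => ?_
    rw [card_product, card_product]
  · rintro ⟨i, j, l⟩ _ ⟨i', j', l'⟩ _ hne
    rw [Function.onFun, disjoint_left]
    rintro ⟨a, b, c⟩ h1 h2
    simp only [mem_product, mem_filter] at h1 h2
    apply hne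
    rw [← h1.1.2, ← h1.2.1.2, ← h1.2.2.2, ← h2.1.2, ← h2.2.1.2, ← h2.2.2.2]

theorem wsum_C5_eq (w : Fin 5 → ℕ) : wsum LC5 w =
    6 * (w 0 * w 1 * w 3 + w 1 * w 2 * w 4 + w 2 * w 3 * w 0 + w 3 * w 4 * w 1 +
      w 4 * w 0 * w 2) := by
  unfold wsum symL
  rw [List.sum_toFinset _ (by decide +kernel)]
  simp only [LC5, List.flatMap_cons, List.flatMap_nil, List.append_nil, List.cons_append,
    List.nil_append, List.map_cons, List.map_nil, List.sum_cons, List.sum_nil]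
  ring

/-- From a relation to a triple system. -/
theorem exists_desc {V : Type*} [Fintype V] [DecidableEq V] {g : V → V → V → Prop}
    (hg : TwoG g) : ∃ H : Finset (Finset V), Desc H g := by
  have i2 : ∀ a b, ¬ g a b b := fun a b h => hg.irr b a (hg.sym.2 _ _ _ (hg.sym.1 _ _ _ h))
  have i3 : ∀ a b, ¬ g a b a := fun a b h => hg.irr a b (hg.sym.2 _ _ _ h)
  have hd : ∀ a b c, g a b c → a ≠ b ∧ b ≠ c ∧ a ≠ c := by
    intro a b c h
    refine ⟨?_, ?_, ?_⟩
    · rintro rfl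
      exact hg.irr _ _ h
    · rintro rfl
      exact i2 _ _ h
    · rintro rfl
      exact i3 _ _ h
  refine ⟨univ.filter fun e => ∃ a b c, e = {a, b, c} ∧ g a b c, ?_, ?_⟩
  · intro e he
    obtain ⟨a, b, c, rfl, h⟩ := (mem_filter.1 he).2
    obtain ⟨h1, h2, h3⟩ := hd a b c h
    exact Finset.card_eq_three.mpr ⟨a, b, c, h1, h3, h2, rfl⟩
  · intro a b c
    constructor
    · intro h
      obtain ⟨h1, h2, h3⟩ := hd a b c h
      exact ⟨h1, h2, h3, mem_filter.2 ⟨mem_univ _, a, b, c, rfl, h⟩⟩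
    · rintro ⟨h1, h2, h3, h4⟩
      obtain ⟨x, y, z, he, h⟩ := (mem_filter.1 h4).2
      rcases perm_of_eq h1 h2 h3 he with k | k | k | k | k | k <;> obtain ⟨rfl, rfl, rfl⟩ := k
      · exact h
      · exact hg.sym.2 _ _ _ h
      · exact hg.sym.1 _ _ _ h
      · exact hg.sym.2 _ _ _ (hg.sym.1 _ _ _ h)
      · exact hg.sym.1 _ _ _ (hg.sym.2 _ _ _ h)
      · exact hg.sym.1 _ _ _ (hg.sym.2 _ _ _ (hg.sym.1 _ _ _ h))

theorem even_of_twoG {V : Type*} [Fintype V] [DecidableEq V] {H : Finset (Finset V)}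
    {g : V → V → V → Prop} (hd : Desc H g) (hg : TwoG g) (Q : Finset V) (hQ : Q.card = 4) :
    Even (H.filter (fun e => e ⊆ Q)).card := by
  rw [card_four H hd.1 hQ]
  obtain ⟨a, Q', ha, rfl, hQ'⟩ := Finset.card_eq_succ.1 hQ
  obtain ⟨b, c, d, hbc, hbd, hcd, rfl⟩ := Finset.card_eq_three.1 hQ'
  simp only [mem_insert, mem_singleton, not_or] at ha
  obtain ⟨hab, hac, had⟩ := ha
  rw [card_filter]
  have ea : (insert a {b, c, d} : Finset V).erase a = {b, c, d} := by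
    ext x
    simp only [mem_erase, mem_insert, mem_singleton]
    constructor
    · tauto
    · rintro (rfl | rfl | rfl)
      · exact ⟨fun h => hab h.symm, by simp⟩
      · exact ⟨fun h => hac h.symm, by simp⟩
      · exact ⟨fun h => had h.symm, by simp⟩
  have eb : (insert a {b, c, d} : Finset V).erase b = {a, c, d} := by
    ext x
    simp only [mem_erase, mem_insert, mem_singleton]
    constructor
    · tauto
    · rintro (rfl | rfl | rfl)
      · exact ⟨hab, by simp⟩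
      · exact ⟨hbc.symm, by simp⟩
      · exact ⟨hbd.symm, by simp⟩
  have ec : (insert a {b, c, d} : Finset V).erase c = {a, b, d} := by
    ext x
    simp only [mem_erase, mem_insert, mem_singleton]
    constructor
    · tauto
    · rintro (rfl | rfl | rfl)
      · exact ⟨hac, by simp⟩
      · exact ⟨hbc, by simp⟩
      · exact ⟨hcd.symm, by simp⟩
  have ed : (insert a {b, c, d} : Finset V).erase d = {a, b, c} := by
    ext x
    simp only [mem_erase, mem_insert, mem_singleton]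
    constructor
    · tauto
    · rintro (rfl | rfl | rfl)
      · exact ⟨had, by simp⟩
      · exact ⟨hbd, by simp⟩
      · exact ⟨hcd, by simp⟩
  rw [sum_insert (by simp [hab, hac, had]), sum_insert (by simp [hbc, hbd]),
    sum_insert (by simp [hcd]), sum_singleton, ea, eb, ec, ed]
  have r1 : g a b c ↔ ({a, b, c} : Finset V) ∈ H := by
    rw [hd.2]; simp [hab, hac, hbc]
  have r2 : g a b d ↔ ({a, b, d} : Finset V) ∈ H := by
    rw [hd.2]; simp [hab, had, hbd]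
  have r3 : g a c d ↔ ({a, c, d} : Finset V) ∈ H := by
    rw [hd.2]; simp [hac, had, hcd]
  have r4 : g b c d ↔ ({b, c, d} : Finset V) ∈ H := by
    rw [hd.2]; simp [hbc, hbd, hcd]
  have h1 := hg.even a b c d
  rw [r1, r2, r3, r4] at h1
  by_cases p : ({a, b, c} : Finset V) ∈ H <;> by_cases q : ({a, b, d} : Finset V) ∈ H <;>
    by_cases r : ({a, c, d} : Finset V) ∈ H <;> by_cases s : ({b, c, d} : Finset V) ∈ H <;>
    simp only [p, q, r, s, if_true, if_false] at h1 ⊢ <;> revert h1 <;> decide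

/-- The colouring of the blow-up. -/
def chi5 (k : ℕ) (v : Fin (5 * k)) : Fin 5 := (finProdFinEquiv.symm v).1

theorem chi5_card (k : ℕ) (i : Fin 5) :
    ((univ : Finset (Fin (5 * k))).filter fun v => chi5 k v = i).card = k := by
  have h1 : ((univ : Finset (Fin (5 * k))).filter fun v => chi5 k v = i).card =
      ((univ : Finset (Fin 5 × Fin k)).filter fun x => x.1 = i).card := by
    apply card_equiv finProdFinEquiv.symm
    intro v
    simp [chi5]
  have h2 : ((univ : Finset (Fin 5 × Fin k)).filter fun x => x.1 = i) =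
      ({i} : Finset (Fin 5)) ×ˢ univ := by
    ext x
    rw [mem_filter, mem_product, mem_singleton]
    simp only [mem_univ, true_and, and_true]
  rw [h1, h2, card_product, card_singleton, card_univ, Fintype.card_fin, one_mul]

theorem sharp5 {γ : ℝ} (hγ : 24 / 100 < γ) : ∃ t : ℕ, 3 ≤ t ∧ ∀ n₀ : ℕ, ∃ n : ℕ, n₀ ≤ n ∧
    ∃ H : Finset (Finset (Fin n)), (∀ e ∈ H, e.card = 3) ∧
      (∀ Q : Finset (Fin n), Q.card = 4 → Even (H.filter (fun e => e ⊆ Q)).card) ∧
      (24 : ℝ) / 100 * ((n.choose 3 : ℕ) : ℝ) ≤ (H.card : ℝ) ∧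
      ∀ S : Finset (Fin n), S.card = t →
        ((H.filter (fun e => e ⊆ S)).card : ℝ) < γ * ((t.choose 3 : ℕ) : ℝ) := by
  have hγ0 : 0 < γ := lt_trans (by norm_num) hγ
  set η : ℝ := (γ - 24 / 100) / (2 * γ) with hη
  have hη0 : 0 < η := div_pos (by linarith) (by linarith)
  refine ⟨max 3 ⌈6 / η⌉₊, le_max_left _ _, fun n₀ => ?_⟩
  set t := max 3 ⌈6 / η⌉₊ with ht
  have ht3 : 3 ≤ t := le_max_left _ _
  have ht0 : (0 : ℝ) < t := by
    have : 0 < t := by omega
    exact_mod_cast this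
  have htη : 6 / η ≤ t := (Nat.le_ceil _).trans (by exact_mod_cast le_max_right _ _)
  have htc := six_choose_lower hη0 htη (by omega)
  have hg : TwoG (fun u v w : Fin (5 * (n₀ + 1)) =>
      P5 (chi5 (n₀ + 1) u) (chi5 (n₀ + 1) v) (chi5 (n₀ + 1) w)) := P5_twoG.pull _
  obtain ⟨H, hH⟩ := exists_desc hg
  refine ⟨5 * (n₀ + 1), by omega, H, hH.1, fun Q hQ => even_of_twoG hH hg Q hQ, ?_, ?_⟩
  · have h1 := ord_card hH univ
    rw [ordT_P5] at h1
    have h2 : H.filter (fun e => e ⊆ univ) = H := by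
      apply filter_true_of_mem
      intro e _
      exact subset_univ _
    rw [h2, wsum_C5_eq] at h1
    simp only [chi5_card] at h1
    have h4 : (5 : ℝ) * ((n₀ : ℝ) + 1) ^ 3 = H.card := by
      have : (5 : ℕ) * (n₀ + 1) ^ 3 = H.card := by
        have e : 6 * ((n₀ + 1) * (n₀ + 1) * (n₀ + 1) + (n₀ + 1) * (n₀ + 1) * (n₀ + 1) +
          (n₀ + 1) * (n₀ + 1) * (n₀ + 1) + (n₀ + 1) * (n₀ + 1) * (n₀ + 1) +
          (n₀ + 1) * (n₀ + 1) * (n₀ + 1)) = 6 * (5 * (n₀ + 1) ^ 3) := by ring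
        rw [e] at h1
        omega
      exact_mod_cast this
    have h5 := Nat.choose_le_pow_div (α := ℝ) 3 (5 * (n₀ + 1))
    have h6 : ((3 : ℕ).factorial : ℝ) = 6 := by norm_num [Nat.factorial]
    rw [h6] at h5
    push_cast at h5 ⊢
    rw [← h4]
    have h7 : 0 ≤ ((n₀ : ℝ) + 1) ^ 3 := by positivity
    have h8 : (5 * ((n₀ : ℝ) + 1)) ^ 3 / 6 = 5 ^ 3 / 6 * ((n₀ : ℝ) + 1) ^ 3 := by ring
    rw [h8] at h5
    linarith
  · intro S hS
    have h1 := ord_card hH S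
    rw [ordT_P5, wsum_C5_eq] at h1
    set x : Fin 5 → ℕ := fun i => (S.filter fun v => chi5 (n₀ + 1) v = i).card with hx
    have hsum : ∑ i, x i = t := by
      rw [← hS]
      exact (card_eq_sum_card_fiberwise (f := chi5 (n₀ + 1)) (t := univ)
        (fun v _ => mem_coe.mpr (mem_univ _))).symm
    rw [Fin.sum_univ_five] at hsum
    have h2 := lagr_C5 (x0 := (x 0 : ℝ)) (x1 := (x 1 : ℝ)) (x2 := (x 2 : ℝ)) (x3 := (x 3 : ℝ))
      (x4 := (x 4 : ℝ)) (Nat.cast_nonneg _) (Nat.cast_nonneg _) (Nat.cast_nonneg _)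
      (Nat.cast_nonneg _) (Nat.cast_nonneg _)
    have h3 : (x 0 : ℝ) + x 1 + x 2 + x 3 + x 4 = t := by exact_mod_cast hsum
    rw [h3] at h2
    have h4 : (6 : ℝ) * ((x 0 : ℝ) * x 1 * x 3 + x 1 * x 2 * x 4 + x 2 * x 3 * x 0 +
        x 3 * x 4 * x 1 + x 4 * x 0 * x 2) =
        6 * ((H.filter (fun e => e ⊆ S)).card : ℝ) := by exact_mod_cast h1
    have h5 : γ * (1 - η) > 24 / 100 := by
      have : γ * η = (γ - 24 / 100) / 2 := by
        rw [hη]
        field_simp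
      linarith
    have h6 : γ * ((1 - η) * (t : ℝ) ^ 3) ≤ γ * (6 * ((t.choose 3 : ℕ) : ℝ)) :=
      mul_le_mul_of_nonneg_left htc hγ0.le
    have h7 : 24 / 100 * (t : ℝ) ^ 3 < γ * (1 - η) * (t : ℝ) ^ 3 :=
      mul_lt_mul_of_pos_right h5 (by positivity)
    linarith

end Pool.Agent.TwoGr
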