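import Pool.Agent.H31Jump.Cyc
import Pool.Agent.H31Jump.Ord

/-!
Two-graphs without `K₄` and without the pentagon are tripartite.
-/

set_option autoImplicit false

open scoped Classical

namespace Pool.Agent.TwoGr

open Finset Pool.Agent.H31Jump

/-- Symmetric, irreflexive, and every four points span an even number of triples. -/
structure TwoG {V : Type*} (g : V → V → V → Prop) : Prop where
  sym : Sym3 g
  irr : ∀ a b, ¬ g a a b
  even : ∀ a b c d, (g a b c ↔ g a b d) ↔ (g a c d ↔ g b c d)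

theorem TwoG.pull {V : Type*} {g : V → V → V → Prop} (hg : TwoG g) {W : Type*} (f : W → V) :
    TwoG (fun i j l => g (f i) (f j) (f l)) where
  sym := ⟨fun a b c h => hg.sym.1 _ _ _ h, fun a b c h => hg.sym.2 _ _ _ h⟩
  irr := fun a b => hg.irr _ _
  even := fun a b c d => hg.even _ _ _ _

/-- Neither `K₄⁻` nor the pentagon maps into `g`. -/
structure Free2 {V : Type*} (g : V → V → V → Prop) : Prop where
  k4 : ∀ h : Fin 4 → V, ¬ IsHom g LK4 h
  c5 : ∀ h : Fin 5 → V, ¬ IsHom g LC5 h

/-- The colour of a vertex with respect to a triple `x a₀ b₀`. -/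
noncomputable def chi {V : Type*} (g : V → V → V → Prop) (x a₀ b₀ v : V) : Fin 3 :=
  if g x b₀ v then 0 else if g x a₀ v then 1 else 2

theorem aux (p1 q1 p2 q2 p3 q3 : Prop) (n1 : ¬ (p1 ∧ q1)) (n2 : ¬ (p2 ∧ q2)) (n3 : ¬ (p3 ∧ q3))
    (hp : (((p1 ∧ q2) ∨ (q1 ∧ p2)) ↔ ((p1 ∧ q3) ∨ (q1 ∧ p3))) ↔
      (((p2 ∧ q3) ∨ (q2 ∧ p3)) ↔ True)) :
    (if p1 then (0 : Fin 3) else if q1 then 1 else 2) ≠ (if p2 then 0 else if q2 then 1 else 2) ∧
    (if p2 then (0 : Fin 3) else if q2 then 1 else 2) ≠ (if p3 then 0 else if q3 then 1 else 2) ∧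
    (if p1 then (0 : Fin 3) else if q1 then 1 else 2) ≠ (if p3 then 0 else if q3 then 1 else 2) := by
  by_cases a1 : p1 <;> by_cases a2 : q1 <;> by_cases a3 : p2 <;> by_cases a4 : q2 <;>
    by_cases a5 : p3 <;> by_cases a6 : q3 <;>
    simp only [a1, a2, a3, a4, a5, a6, if_true, if_false, true_and, and_true, and_false,
      false_and, or_false, false_or, not_true, not_false_iff, iff_true, iff_false, true_iff,
      false_iff, or_self, and_self, or_true, true_or] at n1 n2 n3 hp ⊢ <;> decide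

theorem tripartite {V : Type*} {g : V → V → V → Prop} (hg : TwoG g) (hf : Free2 g)
    {x a₀ b₀ : V} (h0 : g x a₀ b₀) :
    ∀ u v w, g u v w → chi g x a₀ b₀ u ≠ chi g x a₀ b₀ v ∧ chi g x a₀ b₀ v ≠ chi g x a₀ b₀ w ∧
      chi g x a₀ b₀ u ≠ chi g x a₀ b₀ w := by
  -- the link graph
  have sy : ∀ u v, g x u v → g x v u := fun u v h => hg.sym.2 _ _ _ h
  have par : ∀ u v w, (g x u v ↔ g x u w) ↔ (g x v w ↔ g u v w) := fun u v w => hg.even x u v w
  -- no triangle
  have tri : ∀ u v w, g x u v → g x u w → g x v w → False := by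
    intro u v w h1 h2 h3
    apply hf.k4 ![x, u, v, w]
    intro t ht
    simp only [LK4, List.mem_cons, List.mem_nil_iff, or_false] at ht
    rcases ht with rfl | rfl | rfl
    · exact h1
    · exact h2
    · exact h3
  -- no two independent edges
  have mat : ∀ a b c d, g x a b → g x c d → ¬ g x a c → ¬ g x a d → ¬ g x b c → ¬ g x b d →
      False := by
    intro a b c d h1 h2 h3 h4 h5 h6
    have e1 : g a b c := by
      have := par a b c
      tauto
    have e2 : g a b d := by
      have := par a b d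
      tauto
    have e3 : g a c d := by
      have := par a c d
      tauto
    apply hf.k4 ![a, b, c, d]
    intro t ht
    simp only [LK4, List.mem_cons, List.mem_nil_iff, or_false] at ht
    rcases ht with rfl | rfl | rfl
    · exact e1
    · exact e2
    · exact e3
  -- no induced path on four vertices
  have pth : ∀ a b c d, g x a b → g x b c → g x c d → ¬ g x a c → ¬ g x b d → ¬ g x a d →
      False := by
    intro a b c d h1 h2 h3 h4 h5 h6
    have e1 : g a b d := by
      have := par a b d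
      tauto
    have e2 : g a c d := by
      have := par a c d
      tauto
    apply hf.c5 ![x, a, c, b, d]
    intro t ht
    simp only [LC5, List.mem_cons, List.mem_nil_iff, or_false] at ht
    rcases ht with rfl | rfl | rfl | rfl | rfl
    · exact h1
    · exact e2
    · exact hg.sym.1 _ _ _ (hg.sym.2 _ _ _ (hg.sym.1 _ _ _ h2))
    · exact hg.sym.2 _ _ _ (hg.sym.1 _ _ _ e1)
    · exact hg.sym.1 _ _ _ (sy _ _ h3)
  have nb : ∀ v, g x b₀ v → g x a₀ v → False := fun v h1 h2 => tri a₀ b₀ v h0 h2 h1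
  have key1 : ∀ u v, g x b₀ u → g x a₀ v → g x u v := by
    intro u v h1 h2
    by_contra hcon
    exact pth u b₀ a₀ v (sy _ _ h1) (sy _ _ h0) h2 (fun h => nb u h1 (sy _ _ h))
      (fun h => nb v h h2) hcon
  have key2 : ∀ u v, g x u v → (g x b₀ u ∧ g x a₀ v) ∨ (g x a₀ u ∧ g x b₀ v) := by
    intro u v h
    by_cases h1 : g x b₀ u
    · by_cases h2 : g x b₀ v
      · exact (tri b₀ u v h1 h2 h).elim
      · by_cases h3 : g x a₀ v
        · exact Or.inl ⟨h1, h3⟩
        · exact (pth v u b₀ a₀ (sy _ _ h) (sy _ _ h1) (sy _ _ h0) (fun h' => h2 (sy _ _ h'))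
            (fun h' => nb u h1 (sy _ _ h')) (fun h' => h3 (sy _ _ h'))).elim
    · by_cases h1' : g x a₀ u
      · by_cases h2 : g x b₀ v
        · exact Or.inr ⟨h1', h2⟩
        · by_cases h3 : g x a₀ v
          · exact (tri a₀ u v h1' h3 h).elim
          · exact (pth v u a₀ b₀ (sy _ _ h) (sy _ _ h1') h0 (fun h' => h3 (sy _ _ h'))
              (fun h' => nb u (sy _ _ h') h1') (fun h' => h2 (sy _ _ h'))).elim
      · by_cases h2 : g x b₀ v
        · exact (pth u v b₀ a₀ h (sy _ _ h2) (sy _ _ h0) (fun h' => h1 (sy _ _ h'))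
            (fun h' => nb v h2 (sy _ _ h')) (fun h' => h1' (sy _ _ h'))).elim
        · by_cases h3 : g x a₀ v
          · exact (pth u v a₀ b₀ h (sy _ _ h3) h0 (fun h' => h1' (sy _ _ h'))
              (fun h' => nb v (sy _ _ h') h3) (fun h' => h1 (sy _ _ h'))).elim
          · exact (mat u v a₀ b₀ h h0 (fun h' => h1' (sy _ _ h')) (fun h' => h1 (sy _ _ h'))
              (fun h' => h3 (sy _ _ h')) (fun h' => h2 (sy _ _ h'))).elim
  have key : ∀ u v, g x u v ↔ (g x b₀ u ∧ g x a₀ v) ∨ (g x a₀ u ∧ g x b₀ v) := fun u v =>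
    ⟨key2 u v, fun h => h.elim (fun h => key1 u v h.1 h.2) (fun h => sy _ _ (key1 v u h.2 h.1))⟩
  intro u v w huvw
  have hp := par u v w
  rw [key u v, key u w, key v w, iff_true_intro huvw] at hp
  exact aux _ _ _ _ _ _ (fun h => nb u h.1 h.2) (fun h => nb v h.1 h.2) (fun h => nb w h.1 h.2) hp

/-- Symmetric, irreflexive, and no four points span exactly one triple. -/
structure NoOne {V : Type*} (g : V → V → V → Prop) : Prop where
  sym : Sym3 g
  irr : ∀ a b, ¬ g a a b
  one : ∀ a b c d, g a b c → g a b d ∨ g a c d ∨ g b c d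

theorem NoOne.pull {V : Type*} {g : V → V → V → Prop} (hg : NoOne g) {W : Type*} (f : W → V) :
    NoOne (fun i j l => g (f i) (f j) (f l)) where
  sym := ⟨fun a b c h => hg.sym.1 _ _ _ h, fun a b c h => hg.sym.2 _ _ _ h⟩
  irr := fun a b => hg.irr _ _
  one := fun a b c d => hg.one _ _ _ _

theorem NoOne.twoG {V : Type*} {g : V → V → V → Prop} (hg : NoOne g) (hf : Free2 g) :
    TwoG g := by
  have k : ∀ a b c d, g a b c → g a b d → g a c d → False := by
    intro a b c d h1 h2 h3
    apply hf.k4 ![a, b, c, d]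
    intro t ht
    simp only [LK4, List.mem_cons, List.mem_nil_iff, or_false] at ht
    rcases ht with rfl | rfl | rfl
    · exact h1
    · exact h2
    · exact h3
  have s1 := hg.sym.1
  have s2 := hg.sym.2
  refine ⟨hg.sym, hg.irr, ?_⟩
  intro a b c d
  have k1 := k a b c d
  have k2 : g a b c → g a b d → g b c d → False := fun h1 h2 h3 =>
    k b a c d (s1 _ _ _ h1) (s1 _ _ _ h2) h3
  have k3 : g a b c → g a c d → g b c d → False := fun h1 h2 h3 =>
    k c a b d (s1 _ _ _ (s2 _ _ _ h1)) (s1 _ _ _ h2) (s1 _ _ _ h3)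
  have k4 : g a b d → g a c d → g b c d → False := fun h1 h2 h3 =>
    k d a b c (s1 _ _ _ (s2 _ _ _ h1)) (s1 _ _ _ (s2 _ _ _ h2)) (s1 _ _ _ (s2 _ _ _ h3))
  have o1 : g a b c → g a b d ∨ g a c d ∨ g b c d := hg.one a b c d
  have o2 : g a b d → g a b c ∨ g a c d ∨ g b c d := by
    intro h
    rcases hg.one a b d c h with h | h | h
    · exact Or.inl h
    · exact Or.inr (Or.inl (s2 _ _ _ h))
    · exact Or.inr (Or.inr (s2 _ _ _ h))
  have o3 : g a c d → g a b c ∨ g a b d ∨ g b c d := by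
    intro h
    rcases hg.one a c d b h with h | h | h
    · exact Or.inl (s2 _ _ _ h)
    · exact Or.inr (Or.inl (s2 _ _ _ h))
    · exact Or.inr (Or.inr (s1 _ _ _ (s2 _ _ _ h)))
  have o4 : g b c d → g a b c ∨ g a b d ∨ g a c d := by
    intro h
    rcases hg.one b c d a h with h | h | h
    · exact Or.inl (s1 _ _ _ (s2 _ _ _ h))
    · exact Or.inr (Or.inl (s1 _ _ _ (s2 _ _ _ h)))
    · exact Or.inr (Or.inr (s1 _ _ _ (s2 _ _ _ h)))
  clear k s1 s2
  tauto

end Pool.Agent.TwoGr
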