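import Pool.Agent.H31Jump.Super
import Pool.Agent.H31Jump.Blow
import Pool.Agent.H31Jump.Box
import Pool.Agent.TwoGr.Struct

/-!
`2/9` is a jump inside the class of 3-graphs without four vertices spanning exactly one edge.
-/

set_option autoImplicit false

open scoped Classical

namespace Pool.Agent.TwoGr

open Finset Pool.Agent.H31Jump

theorem card_tri {m : ℕ} (χ : Fin m → Fin 3) (T : Finset (Fin m × Fin m × Fin m))
    (hT : ∀ p ∈ T, χ p.1 ≠ χ p.2.1 ∧ χ p.2.1 ≠ χ p.2.2 ∧ χ p.1 ≠ χ p.2.2) :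
    (T.card : ℝ) ≤ 2 / 9 * (m : ℝ) ^ 3 := by
  set U : Fin 3 → Finset (Fin m) := fun i => univ.filter fun v => χ v = i with hU
  have hsum : (U 0).card + (U 1).card + (U 2).card = m := by
    have h1 : (univ : Finset (Fin m)).card = ∑ i : Fin 3, (U i).card :=
      card_eq_sum_card_fiberwise (f := χ) (t := univ) (fun _ _ => mem_coe.2 (mem_univ _))
    rw [card_univ, Fintype.card_fin, Fin.sum_univ_three] at h1
    exact h1.symm
  have hsub : T ⊆ (U 0 ×ˢ (U 1 ×ˢ U 2)) ∪ ((U 0 ×ˢ (U 2 ×ˢ U 1)) ∪ ((U 1 ×ˢ (U 0 ×ˢ U 2)) ∪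
      ((U 1 ×ˢ (U 2 ×ˢ U 0)) ∪ ((U 2 ×ˢ (U 0 ×ˢ U 1)) ∪ (U 2 ×ˢ (U 1 ×ˢ U 0)))))) := by
    rintro ⟨a, b, c⟩ hp
    obtain ⟨h1, h2, h3⟩ := hT _ hp
    simp only at h1 h2 h3
    simp only [mem_union, mem_product, hU, mem_filter, mem_univ, true_and]
    generalize χ a = i at h1 h3 ⊢
    generalize χ b = j at h1 h2 ⊢
    generalize χ c = l at h2 h3 ⊢
    revert i j l
    decide
  have h6 : T.card ≤ 6 * ((U 0).card * ((U 1).card * (U 2).card)) := by
    refine (card_le_card hsub).trans ?_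
    refine (card_union_le _ _).trans ?_
    refine (Nat.add_le_add_left (card_union_le _ _) _).trans ?_
    refine (Nat.add_le_add_left (Nat.add_le_add_left (card_union_le _ _) _) _).trans ?_
    refine (Nat.add_le_add_left (Nat.add_le_add_left (Nat.add_le_add_left
      (card_union_le _ _) _) _) _).trans ?_
    refine (Nat.add_le_add_left (Nat.add_le_add_left (Nat.add_le_add_left (Nat.add_le_add_left
      (card_union_le _ _) _) _) _) _).trans ?_
    simp only [card_product]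
    apply le_of_eq
    ring
  have h7 : (T.card : ℝ) ≤ 6 * (((U 0).card : ℝ) * (((U 1).card : ℝ) * ((U 2).card : ℝ))) := by
    exact_mod_cast h6
  have h8 : ((U 0).card : ℝ) + ((U 1).card : ℝ) + ((U 2).card : ℝ) = m := by
    exact_mod_cast hsum
  have a0 : (0 : ℝ) ≤ ((U 0).card : ℝ) := Nat.cast_nonneg _
  have a1 : (0 : ℝ) ≤ ((U 1).card : ℝ) := Nat.cast_nonneg _
  have a2 : (0 : ℝ) ≤ ((U 2).card : ℝ) := Nat.cast_nonneg _
  rw [← h8]
  generalize ((U 0).card : ℝ) = x at *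
  generalize ((U 1).card : ℝ) = y at *
  generalize ((U 2).card : ℝ) = z at *
  have : 27 * (x * (y * z)) ≤ (x + y + z) ^ 3 := by
    nlinarith [mul_nonneg a0 (sq_nonneg (y - z)), mul_nonneg a1 (sq_nonneg (x - z)),
      mul_nonneg a2 (sq_nonneg (x - y)), mul_nonneg (add_nonneg (add_nonneg a0 a1) a2)
      (add_nonneg (add_nonneg (sq_nonneg (x - y)) (sq_nonneg (y - z))) (sq_nonneg (x - z)))]
  linarith

theorem turan_count2 {m : ℕ} {g : Fin m → Fin m → Fin m → Prop} (hg : TwoG g) (hf : Free2 g) :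
    ((ordT g univ).card : ℝ) ≤ 2 / 9 * (m : ℝ) ^ 3 := by
  rcases (ordT g univ).eq_empty_or_nonempty with h | ⟨⟨x, a, b⟩, h⟩
  · rw [h]
    simp only [card_empty, Nat.cast_zero]
    positivity
  · have h0 : g x a b := by
      simp only [ordT, mem_filter, mem_univ, true_and, and_true] at h
      exact h
    refine card_tri (chi g x a b) _ ?_
    rintro ⟨u, v, w⟩ hp
    have h1 : g u v w := by
      simp only [ordT, mem_filter, mem_univ, true_and, and_true] at hp
      exact hp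
    exact tripartite hg hf h0 u v w h1

/-- The pulled back triple system. -/
def pull3 {V : Type*} (g : V → V → V → Prop) {m : ℕ} (f : Fin m → V) :
    Fin m → Fin m → Fin m → Prop :=
  fun i j l => g (f i) (f j) (f l)

theorem super2 {ε : ℝ} (hε : 0 < ε) (hε1 : ε ≤ 1) : ∃ m n₀ : ℕ, 0 < m ∧ ∀ n ≥ n₀,
    ∀ g : Fin n → Fin n → Fin n → Prop, NoOne g →
      (2 / 9 + ε) * (6 * ((n.choose 3 : ℕ) : ℝ)) ≤ ((ordT g univ).card : ℝ) →
      ε / 2 * (n : ℝ) ^ m ≤
        (((univ : Finset (Fin m → Fin n)).filter fun f => ¬ Free2 (pull3 g f)).card : ℝ) := by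
  set η : ℝ := ε / 8 with hη
  have hη0 : 0 < η := by positivity
  refine ⟨max 3 ⌈6 / η⌉₊, max 3 ⌈6 / η⌉₊, by omega, ?_⟩
  intro n hn g hg hq
  set m := max 3 ⌈6 / η⌉₊ with hm
  have hm3 : 3 ≤ m := le_max_left _ _
  have hn3 : 3 ≤ n := hm3.trans hn
  have hmη : 6 / η ≤ m := (Nat.le_ceil _).trans (by exact_mod_cast le_max_right _ _)
  have hnη : 6 / η ≤ n := hmη.trans (by exact_mod_cast hn)
  have hm0 : (0 : ℝ) < m := by
    have : 0 < m := by omega
    exact_mod_cast this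
  have hn0 : (0 : ℝ) < n := by
    have : 0 < n := by omega
    exact_mod_cast this
  set F := (univ : Finset (Fin m → Fin n)).filter fun f => ¬ Free2 (pull3 g f) with hF
  set q : ℝ := ((ordT g univ).card : ℝ) with hqdef
  -- the double count
  have hdc : ∑ f : Fin m → Fin n, ((ordT (pull3 g f) univ).card : ℝ) ≥
      6 * ((m.choose 3 : ℕ) : ℝ) * (q * (n : ℝ) ^ (m - 3)) := by
    have h1 : ∀ f : Fin m → Fin n, ((ordT (pull3 g f) univ).card : ℝ) =
        ∑ p : Fin m × Fin m × Fin m, (if g (f p.1) (f p.2.1) (f p.2.2) then (1 : ℝ) else 0) := by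
      intro f
      unfold ordT
      rw [card_filter]
      push_cast
      refine sum_congr rfl fun p _ => ?_
      simp only [mem_univ, and_true, pull3]
    simp only [h1]
    rw [sum_comm]
    have h2 : ∑ p ∈ ordT (fun a b c : Fin m => a ≠ b ∧ b ≠ c ∧ a ≠ c) univ,
        ∑ f : Fin m → Fin n, (if g (f p.1) (f p.2.1) (f p.2.2) then (1 : ℝ) else 0) =
        6 * ((m.choose 3 : ℕ) : ℝ) * (q * (n : ℝ) ^ (m - 3)) := by
      rw [sum_congr rfl (g := fun _ => q * (n : ℝ) ^ (m - 3)), sum_const, card_distinct,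
        nsmul_eq_mul]
      · push_cast
        ring
      · intro p hp
        simp only [ordT, mem_filter, mem_univ, true_and, and_true] at hp
        have h3 := count_triple (V := Fin n) g hp.1 hp.2.1 hp.2.2
        rw [card_filter, Fintype.card_fin] at h3
        rw [hqdef]
        exact_mod_cast h3
    rw [← h2]
    apply sum_le_sum_of_subset_of_nonneg (subset_univ _)
    intro p _ _
    apply sum_nonneg
    intro f _
    split_ifs <;> norm_num
  have hup : ∑ f : Fin m → Fin n, ((ordT (pull3 g f) univ).card : ℝ) ≤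
      (m : ℝ) ^ 3 * F.card + 2 / 9 * (m : ℝ) ^ 3 * (n : ℝ) ^ m := by
    have h1 : ∀ f : Fin m → Fin n, ((ordT (pull3 g f) univ).card : ℝ) ≤
        (if f ∈ F then (m : ℝ) ^ 3 else 0) + 2 / 9 * (m : ℝ) ^ 3 := by
      intro f
      by_cases hf : f ∈ F
      · rw [if_pos hf]
        have h2 : (ordT (pull3 g f) univ).card ≤ m ^ 3 := by
          refine (card_le_univ _).trans ?_
          rw [Fintype.card_prod, Fintype.card_prod, Fintype.card_fin]
          apply le_of_eq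
          ring
        have h3 : ((ordT (pull3 g f) univ).card : ℝ) ≤ (m : ℝ) ^ 3 := by exact_mod_cast h2
        have : 0 ≤ 2 / 9 * (m : ℝ) ^ 3 := by positivity
        linarith
      · rw [if_neg hf]
        have h2 : Free2 (pull3 g f) := by
          by_contra hcon
          exact hf (by rw [hF]; simp [hcon])
        have h3 := turan_count2 ((hg.pull f).twoG h2) h2
        have h4 : ((ordT (pull3 g f) univ).card : ℝ) ≤ 2 / 9 * (m : ℝ) ^ 3 := h3
        linarith
    refine (sum_le_sum fun f _ => h1 f).trans ?_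
    rw [sum_add_distrib, sum_ite_mem, univ_inter, sum_const, sum_const, card_univ,
      Fintype.card_fun, Fintype.card_fin, Fintype.card_fin]
    simp only [nsmul_eq_mul]
    push_cast
    apply le_of_eq
    ring
  have hmc := six_choose_lower hη0 hmη (by omega)
  have hnc := six_choose_lower hη0 hnη (by omega)
  have hη1 : 0 ≤ 1 - η := by rw [hη]; linarith
  have hq2 : (2 / 9 + ε) * ((1 - η) * (n : ℝ) ^ 3) ≤ q :=
    (mul_le_mul_of_nonneg_left hnc (by positivity)).trans hq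
  have hpow : (n : ℝ) ^ m = (n : ℝ) ^ 3 * (n : ℝ) ^ (m - 3) := by
    rw [← pow_add]
    congr 1
    omega
  have h5 : (1 - η) * (m : ℝ) ^ 3 * ((2 / 9 + ε) * ((1 - η) * (n : ℝ) ^ 3) * (n : ℝ) ^ (m - 3)) ≤
      6 * ((m.choose 3 : ℕ) : ℝ) * (q * (n : ℝ) ^ (m - 3)) := by
    apply mul_le_mul hmc _ (by positivity) (by positivity)
    exact mul_le_mul_of_nonneg_right hq2 (by positivity)
  have h6 : (1 - η) * (m : ℝ) ^ 3 * ((2 / 9 + ε) * ((1 - η) * (n : ℝ) ^ 3) * (n : ℝ) ^ (m - 3)) =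
      ((1 - η) ^ 2 * (2 / 9 + ε)) * ((m : ℝ) ^ 3 * (n : ℝ) ^ m) := by
    rw [hpow]; ring
  have h7 : 2 / 9 + ε / 2 ≤ (1 - η) ^ 2 * (2 / 9 + ε) := by
    rw [hη]
    nlinarith [sq_nonneg ε, mul_nonneg hε.le (sub_nonneg.mpr hε1),
      mul_nonneg (mul_nonneg hε.le hε.le) hε.le]
  have hMN : 0 < (m : ℝ) ^ 3 * (n : ℝ) ^ m := by positivity
  have h8 := mul_le_mul_of_nonneg_right h7 hMN.le
  have h9 : ε / 2 * (n : ℝ) ^ m * (m : ℝ) ^ 3 ≤ F.card * (m : ℝ) ^ 3 := by
    have : (2 / 9 + ε / 2) * ((m : ℝ) ^ 3 * (n : ℝ) ^ m) ≤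
        (m : ℝ) ^ 3 * F.card + 2 / 9 * (m : ℝ) ^ 3 * (n : ℝ) ^ m := by
      linarith
    linarith
  exact le_of_mul_le_mul_right h9 (by positivity)

/-- The maps along which `h` becomes a homomorphism. -/
noncomputable def homSet2 {n m k : ℕ} (g : Fin n → Fin n → Fin n → Prop)
    (L : List (Fin k × Fin k × Fin k)) (h : Fin k → Fin m) : Finset (Fin m → Fin n) :=
  univ.filter fun f => IsHom g L (f ∘ h)

theorem cfg_case2 {k : ℕ} (hk : 0 < k) {L : List (Fin k × Fin k × Fin k)} {w : Fin k → ℕ}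
    (hL : Good L w) (m : ℕ) {δ : ℝ} (hδ : 0 < δ) {γ : ℝ}
    (hγ : γ * (((∑ i, w i : ℕ)) : ℝ) ^ 3 ≤ (wsum L w : ℕ)) {t : ℕ} (ht : 3 ≤ t) :
    ∃ n₀ : ℕ, ∀ n ≥ n₀, ∀ (H : Finset (Finset (Fin n))) (g : Fin n → Fin n → Fin n → Prop),
      Desc H g → Sym3 g → (∀ a b, ¬ g a a b) →
      ∀ h : Fin k → Fin m, δ * (n : ℝ) ^ m ≤ ((homSet2 g L h).card : ℝ) →
      ∃ S : Finset (Fin n), S.card = t ∧
        γ * ((t.choose 3 : ℕ) : ℝ) ≤ ((H.filter (fun e => e ⊆ S)).card : ℝ) := by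
  obtain ⟨n₀, h0⟩ := box ((∑ i, w i) * t) m δ hδ
  refine ⟨n₀, fun n hn H g hD hsy hirr h hh => ?_⟩
  obtain ⟨V, hV1, hV2⟩ := h0 n hn _ hh
  have hWpos : 0 < ∑ i, w i := by
    apply sum_pos (fun i _ => hL.pos i)
    exact ⟨⟨0, hk⟩, mem_univ _⟩
  have hne : ∀ i, (V i).Nonempty := by
    intro i
    rw [← card_pos, hV1]
    exact Nat.mul_pos hWpos (by omega)
  choose z hz using hne
  have hhom : ∀ f : Fin m → Fin n, (∀ i, f i ∈ V i) → IsHom g L (f ∘ h) := by
    intro f hf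
    have := hV2 f hf
    rw [homSet2, mem_filter] at this
    exact this.2
  have hinj : Function.Injective h := by
    have := hom_inj hsy hirr hL (hhom z hz)
    exact Function.Injective.of_comp this
  refine blow hD hsy hirr hk hL ht (B := fun j => V (h j)) ?_ ?_ hγ
  · intro j
    rw [hV1]
    exact Nat.mul_le_mul_right t (single_le_sum (fun i _ => Nat.zero_le _) (mem_univ j))
  · intro u hu
    let f : Fin m → Fin n := fun i => if hi : ∃ j, h j = i then u hi.choose else z i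
    have hf1 : ∀ j, f (h j) = u j := by
      intro j
      have hi : ∃ j', h j' = h j := ⟨j, rfl⟩
      simp only [f]
      rw [dif_pos hi, hinj hi.choose_spec]
    have hf2 : ∀ i, f i ∈ V i := by
      intro i
      by_cases hi : ∃ j, h j = i
      · obtain ⟨j, rfl⟩ := hi
        rw [hf1]
        exact hu j
      · simp only [f]
        rw [dif_neg hi]
        exact hz i
    have h1 := hhom f hf2
    have h2 : f ∘ h = u := by
      funext j
      exact hf1 j
    rwa [h2] at h1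

theorem sum_hom_bound2 {n m k : ℕ} (g : Fin n → Fin n → Fin n → Prop)
    (L : List (Fin k × Fin k × Fin k)) {x : ℝ}
    (hx : ∀ h : Fin k → Fin m, ((homSet2 g L h).card : ℝ) < x) (hm : 0 < m) :
    ((univ.biUnion fun h : Fin k → Fin m => homSet2 g L h).card : ℝ) < (m : ℝ) ^ k * x := by
  have h1 : ((univ.biUnion fun h : Fin k → Fin m => homSet2 g L h).card : ℝ) ≤
      ∑ h : Fin k → Fin m, ((homSet2 g L h).card : ℝ) := by
    exact_mod_cast card_biUnion_le
  have hne : (univ : Finset (Fin k → Fin m)).Nonempty :=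
    ⟨fun _ => ⟨0, hm⟩, mem_univ _⟩
  have h2 : ∑ h : Fin k → Fin m, ((homSet2 g L h).card : ℝ) <
      ∑ h : Fin k → Fin m, x := sum_lt_sum_of_nonempty hne fun h _ => hx h
  rw [sum_const, card_univ, Fintype.card_fun, Fintype.card_fin, Fintype.card_fin,
    nsmul_eq_mul] at h2
  push_cast at h2
  linarith

theorem gam2 {A B : ℕ} {γ : ℝ} (hγ : γ ≤ 24 / 100) (h : 24 * A ^ 3 ≤ 100 * B) :
    γ * (A : ℝ) ^ 3 ≤ (B : ℝ) := by
  have h2 : (24 : ℝ) * (A : ℝ) ^ 3 ≤ 100 * (B : ℝ) := by exact_mod_cast h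
  have h3 : γ * (A : ℝ) ^ 3 ≤ 24 / 100 * (A : ℝ) ^ 3 :=
    mul_le_mul_of_nonneg_right hγ (by positivity)
  linarith

theorem main2 {ε : ℝ} (hε : 0 < ε) {t : ℕ} (ht : 3 ≤ t) : ∃ n₀ : ℕ, ∀ n ≥ n₀,
    ∀ (H : Finset (Finset (Fin n))) (g : Fin n → Fin n → Fin n → Prop), Desc H g → NoOne g →
      (2 / 9 + ε) * ((n.choose 3 : ℕ) : ℝ) ≤ (H.card : ℝ) →
      ∃ S : Finset (Fin n), S.card = t ∧
        24 / 100 * ((t.choose 3 : ℕ) : ℝ) ≤
          ((H.filter (fun e => e ⊆ S)).card : ℝ) := by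
  set ε' : ℝ := min ε 1 with hε'
  have hε'0 : 0 < ε' := lt_min hε one_pos
  obtain ⟨m, n₁, hm, h1⟩ := super2 hε'0 (min_le_right ε 1)
  have hm0 : (0 : ℝ) < m := by exact_mod_cast hm
  set δ : ℝ := ε' / (8 * (m : ℝ) ^ 5) with hδ
  have hδ0 : 0 < δ := by positivity
  have γK := gam2 (γ := 24 / 100) le_rfl wsum_K4
  have γC := gam2 (γ := 24 / 100) le_rfl wsum_C5
  obtain ⟨a1, b1⟩ := cfg_case2 (by norm_num) good_K4 m hδ0 γK ht
  obtain ⟨a3, b3⟩ := cfg_case2 (by norm_num) good_C5 m hδ0 γC ht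
  refine ⟨n₁ + a1 + a3, fun n hn H g hD hg hH => ?_⟩
  have hq : (2 / 9 + ε') * (6 * ((n.choose 3 : ℕ) : ℝ)) ≤ ((ordT g univ).card : ℝ) := by
    rw [ord_card hD]
    have h2 : H.filter (fun e => e ⊆ univ) = H := by
      apply filter_true_of_mem
      intro e _
      exact subset_univ _
    rw [h2]
    push_cast
    have h3 : (2 / 9 + ε') * ((n.choose 3 : ℕ) : ℝ) ≤ (2 / 9 + ε) * ((n.choose 3 : ℕ) : ℝ) :=
      mul_le_mul_of_nonneg_right (by linarith [min_le_left ε 1]) (Nat.cast_nonneg _)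
    linarith
  have hF := h1 n (by omega) g hg hq
  by_contra hcon
  have c1 : ∀ h : Fin 4 → Fin m, ((homSet2 g LK4 h).card : ℝ) < δ * (n : ℝ) ^ m := by
    intro h
    by_contra hh
    exact hcon (b1 n (by omega) H g hD hg.sym hg.irr h (not_lt.mp hh))
  have c3 : ∀ h : Fin 5 → Fin m, ((homSet2 g LC5 h).card : ℝ) < δ * (n : ℝ) ^ m := by
    intro h
    by_contra hh
    exact hcon (b3 n (by omega) H g hD hg.sym hg.irr h (not_lt.mp hh))
  have d1 := sum_hom_bound2 g LK4 c1 hm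
  have d3 := sum_hom_bound2 g LC5 c3 hm
  have hsub : ((univ : Finset (Fin m → Fin n)).filter fun f => ¬ Free2 (pull3 g f)) ⊆
      (univ.biUnion fun h : Fin 4 → Fin m => homSet2 g LK4 h) ∪
      (univ.biUnion fun h : Fin 5 → Fin m => homSet2 g LC5 h) := by
    intro f hf
    rw [mem_filter] at hf
    by_contra hnot
    simp only [mem_union, mem_biUnion, mem_univ, true_and, homSet2, mem_filter, not_or,
      not_exists] at hnot
    obtain ⟨e1, e3⟩ := hnot
    have hconv : ∀ {k : ℕ} (L : List (Fin k × Fin k × Fin k)) (h : Fin k → Fin m),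
        IsHom (pull3 g f) L h → IsHom g L (f ∘ h) := by
      intro k L h hh p hp
      exact hh p hp
    exact hf.2 ⟨fun h hh => e1 h (hconv _ _ hh), fun h hh => e3 h (hconv _ _ hh)⟩
  have hcard := card_le_card hsub
  have u1 := card_union_le (univ.biUnion fun h : Fin 4 → Fin m => homSet2 g LK4 h)
      (univ.biUnion fun h : Fin 5 → Fin m => homSet2 g LC5 h)
  have hall : ((((univ : Finset (Fin m → Fin n)).filter
      fun f => ¬ Free2 (pull3 g f)).card : ℕ) : ℝ) ≤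
      ((univ.biUnion fun h : Fin 4 → Fin m => homSet2 g LK4 h).card : ℝ) +
      ((univ.biUnion fun h : Fin 5 → Fin m => homSet2 g LC5 h).card : ℝ) := by
    exact_mod_cast hcard.trans u1
  have hm1 : (1 : ℝ) ≤ m := by exact_mod_cast hm
  have p4 : (m : ℝ) ^ 4 ≤ (m : ℝ) ^ 5 := pow_le_pow_right₀ hm1 (by norm_num)
  have hX : 0 ≤ δ * (n : ℝ) ^ m := mul_nonneg hδ0.le (pow_nonneg (Nat.cast_nonneg _) _)
  have q4 := mul_le_mul_of_nonneg_right p4 hX
  have hfin : 4 * ((m : ℝ) ^ 5 * (δ * (n : ℝ) ^ m)) = ε' / 2 * (n : ℝ) ^ m := by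
    rw [hδ]
    field_simp
    ring
  have hpos : 0 ≤ ε' / 2 * (n : ℝ) ^ m := by positivity
  linarith

end Pool.Agent.TwoGr
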