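import Pool.Agent.TwoGr.Jump

/-!
From triple systems with an even number of edges on every four vertices to the relation `TwoG`.
-/

set_option autoImplicit false

open scoped Classical

namespace Pool.Agent.TwoGr

open Finset Pool.Agent.H31Jump

/-- The relation of a triple system. -/
def rel {V : Type*} [DecidableEq V] (H : Finset (Finset V)) (a b c : V) : Prop :=
  a ≠ b ∧ b ≠ c ∧ a ≠ c ∧ ({a, b, c} : Finset V) ∈ H

theorem card_four {V : Type*} [DecidableEq V] (H : Finset (Finset V))
    (h3 : ∀ e ∈ H, e.card = 3) {Q : Finset V} (hQ : Q.card = 4) :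
    (H.filter (fun e => e ⊆ Q)).card = (Q.filter (fun v => Q.erase v ∈ H)).card := by
  have h1 : H.filter (fun e => e ⊆ Q) =
      (Q.filter (fun v => Q.erase v ∈ H)).image (fun v => Q.erase v) := by
    ext e
    constructor
    · intro he
      obtain ⟨heH, heQ⟩ := mem_filter.1 he
      have h4 : (Q \ e).card = 1 := by rw [card_sdiff_of_subset heQ, hQ, h3 e heH]
      obtain ⟨v, hv⟩ := card_eq_one.1 h4
      have hvQ : v ∈ Q := (mem_sdiff.1 (hv ▸ mem_singleton_self v)).1
      have h5 : Q.erase v = e := by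
        rw [erase_eq, ← hv, Finset.sdiff_sdiff_eq_self heQ]
      exact mem_image.2 ⟨v, mem_filter.2 ⟨hvQ, by rw [h5]; exact heH⟩, h5⟩
    · intro he
      obtain ⟨v, hv, rfl⟩ := mem_image.1 he
      exact mem_filter.2 ⟨(mem_filter.1 hv).2, erase_subset _ _⟩
  rw [h1]
  apply card_image_of_injOn
  intro v hv w hw hvw
  exact Finset.erase_injOn Q (mem_coe.2 (mem_filter.1 hv).1) (mem_coe.2 (mem_filter.1 hw).1) hvw

theorem four {V : Type*} [DecidableEq V] {H : Finset (Finset V)}
    (h3 : ∀ e ∈ H, e.card = 3) (hE : ∀ Q : Finset V, Q.card = 4 →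
      Even (H.filter (fun e => e ⊆ Q)).card) {a b c d : V} (hab : a ≠ b) (hac : a ≠ c)
    (had : a ≠ d) (hbc : b ≠ c) (hbd : b ≠ d) (hcd : c ≠ d) :
    (({a, b, c} : Finset V) ∈ H ↔ ({a, b, d} : Finset V) ∈ H) ↔
      (({a, c, d} : Finset V) ∈ H ↔ ({b, c, d} : Finset V) ∈ H) := by
  have hQ : ({a, b, c, d} : Finset V).card = 4 := by
    rw [card_insert_of_notMem, card_insert_of_notMem, card_insert_of_notMem, card_singleton] <;>
      simp [hab, hac, had, hbc, hbd, hcd]
  have h1 := hE _ hQ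
  rw [card_four H h3 hQ, card_filter] at h1
  have ea : ({a, b, c, d} : Finset V).erase a = {b, c, d} := by
    ext x
    simp only [mem_erase, mem_insert, mem_singleton]
    constructor
    · tauto
    · rintro (rfl | rfl | rfl)
      · exact ⟨hab.symm, by simp⟩
      · exact ⟨hac.symm, by simp⟩
      · exact ⟨had.symm, by simp⟩
  have eb : ({a, b, c, d} : Finset V).erase b = {a, c, d} := by
    ext x
    simp only [mem_erase, mem_insert, mem_singleton]
    constructor
    · tauto
    · rintro (rfl | rfl | rfl)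
      · exact ⟨hab, by simp⟩
      · exact ⟨hbc.symm, by simp⟩
      · exact ⟨hbd.symm, by simp⟩
  have ec : ({a, b, c, d} : Finset V).erase c = {a, b, d} := by
    ext x
    simp only [mem_erase, mem_insert, mem_singleton]
    constructor
    · tauto
    · rintro (rfl | rfl | rfl)
      · exact ⟨hac, by simp⟩
      · exact ⟨hbc, by simp⟩
      · exact ⟨hcd.symm, by simp⟩
  have ed : ({a, b, c, d} : Finset V).erase d = {a, b, c} := by
    ext x
    simp only [mem_erase, mem_insert, mem_singleton]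
    constructor
    · tauto
    · rintro (rfl | rfl | rfl)
      · exact ⟨had, by simp⟩
      · exact ⟨hbd, by simp⟩
      · exact ⟨hcd, by simp⟩
  rw [sum_insert (by simp [hab, hac, had]), sum_insert (by simp [hbc, hbd]),
    sum_insert (by simp [hcd]), sum_singleton, ea, eb, ec, ed] at h1
  by_cases p : ({a, b, c} : Finset V) ∈ H <;> by_cases q : ({a, b, d} : Finset V) ∈ H <;>
    by_cases r : ({a, c, d} : Finset V) ∈ H <;> by_cases s : ({b, c, d} : Finset V) ∈ H <;>
    simp only [p, q, r, s, if_true, if_false] at h1 ⊢ <;> revert h1 <;> decide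

theorem rel_desc {V : Type*} [Fintype V] [DecidableEq V] {H : Finset (Finset V)}
    (h3 : ∀ e ∈ H, e.card = 3) : Desc H (rel H) :=
  ⟨h3, fun _ _ _ => Iff.rfl⟩

theorem rel_twoG {V : Type*} [DecidableEq V] {H : Finset (Finset V)}
    (h3 : ∀ e ∈ H, e.card = 3) (hE : ∀ Q : Finset V, Q.card = 4 →
      Even (H.filter (fun e => e ⊆ Q)).card) : TwoG (rel H) := by
  have s1 : ∀ a b c, rel H a b c → rel H b a c := by
    rintro a b c ⟨h1, h2, h3, h4⟩
    exact ⟨h1.symm, h3, h2, by rwa [insert_comm]⟩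
  have s2 : ∀ a b c, rel H a b c → rel H a c b := by
    rintro a b c ⟨h1, h2, h3, h4⟩
    exact ⟨h3, h2.symm, h1, by rwa [pair_comm]⟩
  have i1 : ∀ a b, ¬ rel H a a b := fun a b h => h.1 rfl
  have i2 : ∀ a b, ¬ rel H a b b := fun a b h => h.2.1 rfl
  have i3 : ∀ a b, ¬ rel H a b a := fun a b h => h.2.2.1 rfl
  refine ⟨⟨s1, s2⟩, i1, ?_⟩
  intro a b c d
  by_cases hab : a = b
  · subst hab
    simp [i1]
  by_cases hac : a = c
  · subst hac
    have e : rel H a b d ↔ rel H b a d := ⟨s1 _ _ _, s1 _ _ _⟩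
    simp [i1, i3, e]
  by_cases had : a = d
  · subst had
    have e : rel H a b c ↔ rel H b c a := ⟨fun h => s2 _ _ _ (s1 _ _ _ h),
      fun h => s1 _ _ _ (s2 _ _ _ h)⟩
    simp [i3, e]
  by_cases hbc : b = c
  · subst hbc
    simp [i1, i2]
  by_cases hbd : b = d
  · subst hbd
    have e : rel H a b c ↔ rel H a c b := ⟨s2 _ _ _, s2 _ _ _⟩
    simp [i2, i3, e]
  by_cases hcd : c = d
  · subst hcd
    simp [i2]
  have h := four h3 hE hab hac had hbc hbd hcd
  have r1 : rel H a b c ↔ ({a, b, c} : Finset V) ∈ H := by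
    unfold rel; simp [hab, hac, hbc]
  have r2 : rel H a b d ↔ ({a, b, d} : Finset V) ∈ H := by
    unfold rel; simp [hab, had, hbd]
  have r3 : rel H a c d ↔ ({a, c, d} : Finset V) ∈ H := by
    unfold rel; simp [hac, had, hcd]
  have r4 : rel H b c d ↔ ({b, c, d} : Finset V) ∈ H := by
    unfold rel; simp [hbc, hbd, hcd]
  rw [r1, r2, r3, r4]
  exact h

theorem four_one {V : Type*} [DecidableEq V] {H : Finset (Finset V)}
    (h3 : ∀ e ∈ H, e.card = 3) (hE : ∀ Q : Finset V, Q.card = 4 →
      (H.filter (fun e => e ⊆ Q)).card ≠ 1) {a b c d : V} (hab : a ≠ b) (hac : a ≠ c)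
    (had : a ≠ d) (hbc : b ≠ c) (hbd : b ≠ d) (hcd : c ≠ d)
    (h : ({a, b, c} : Finset V) ∈ H) :
    ({a, b, d} : Finset V) ∈ H ∨ ({a, c, d} : Finset V) ∈ H ∨ ({b, c, d} : Finset V) ∈ H := by
  have hQ : ({a, b, c, d} : Finset V).card = 4 := by
    rw [card_insert_of_notMem, card_insert_of_notMem, card_insert_of_notMem, card_singleton] <;>
      simp [hab, hac, had, hbc, hbd, hcd]
  have h1 := hE _ hQ
  by_contra hcon
  push Not at hcon
  obtain ⟨q, r, s⟩ := hcon
  apply h1
  rw [card_four H h3 hQ, card_filter]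
  have ea : ({a, b, c, d} : Finset V).erase a = {b, c, d} := by
    ext x
    simp only [mem_erase, mem_insert, mem_singleton]
    constructor
    · tauto
    · rintro (rfl | rfl | rfl)
      · exact ⟨hab.symm, by simp⟩
      · exact ⟨hac.symm, by simp⟩
      · exact ⟨had.symm, by simp⟩
  have eb : ({a, b, c, d} : Finset V).erase b = {a, c, d} := by
    ext x
    simp only [mem_erase, mem_insert, mem_singleton]
    constructor
    · tauto
    · rintro (rfl | rfl | rfl)
      · exact ⟨hab, by simp⟩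
      · exact ⟨hbc.symm, by simp⟩
      · exact ⟨hbd.symm, by simp⟩
  have ec : ({a, b, c, d} : Finset V).erase c = {a, b, d} := by
    ext x
    simp only [mem_erase, mem_insert, mem_singleton]
    constructor
    · tauto
    · rintro (rfl | rfl | rfl)
      · exact ⟨hac, by simp⟩
      · exact ⟨hbc, by simp⟩
      · exact ⟨hcd.symm, by simp⟩
  have ed : ({a, b, c, d} : Finset V).erase d = {a, b, c} := by
    ext x
    simp only [mem_erase, mem_insert, mem_singleton]
    constructor
    · tauto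
    · rintro (rfl | rfl | rfl)
      · exact ⟨had, by simp⟩
      · exact ⟨hbd, by simp⟩
      · exact ⟨hcd, by simp⟩
  rw [sum_insert (by simp [hab, hac, had]), sum_insert (by simp [hbc, hbd]),
    sum_insert (by simp [hcd]), sum_singleton, ea, eb, ec, ed]
  simp only [h, q, r, s, if_true, if_false, zero_add]

theorem rel_noOne {V : Type*} [DecidableEq V] {H : Finset (Finset V)}
    (h3 : ∀ e ∈ H, e.card = 3) (hE : ∀ Q : Finset V, Q.card = 4 →
      (H.filter (fun e => e ⊆ Q)).card ≠ 1) : NoOne (rel H) := by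
  have s1 : ∀ a b c, rel H a b c → rel H b a c := by
    rintro a b c ⟨h1, h2, h3, h4⟩
    exact ⟨h1.symm, h3, h2, by rwa [insert_comm]⟩
  have s2 : ∀ a b c, rel H a b c → rel H a c b := by
    rintro a b c ⟨h1, h2, h3, h4⟩
    exact ⟨h3, h2.symm, h1, by rwa [pair_comm]⟩
  refine ⟨⟨s1, s2⟩, fun a b h => h.1 rfl, ?_⟩
  intro a b c d h
  by_cases had : a = d
  · subst had
    exact Or.inr (Or.inr (s2 _ _ _ (s1 _ _ _ h)))
  by_cases hbd : b = d
  · subst hbd
    exact Or.inr (Or.inl (s2 _ _ _ h))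
  by_cases hcd : c = d
  · subst hcd
    exact Or.inl h
  obtain ⟨hab, hbc, hac, hh⟩ := h
  rcases four_one h3 hE hab hac had hbc hbd hcd hh with k | k | k
  · exact Or.inl ⟨hab, hbd, had, k⟩
  · exact Or.inr (Or.inl ⟨hac, hcd, had, k⟩)
  · exact Or.inr (Or.inr ⟨hbc, hcd, hbd, k⟩)

end Pool.Agent.TwoGr
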